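import Pool.Agent.W682.TW.Stm

/-! Project TW, part LE4: `g4` lies below the wells. -/

set_option autoImplicit false

namespace Pool.Agent.W925.TW.LE4

open Pool.Agent.W682.TW
open scoped BigOperators

theorem Yf_sq {n : ℕ} {σ : ℕ → ℝ} (hσ : Sgn σ) (b : Fin n → ℝ) (i : Fin n) :
    Yf n σ b i ^ 2 ≤ n * Pool.Agent.W682.TW.sq b := by
  unfold Yf Pool.Agent.W682.TW.sq
  refine (Finset.sum_mul_sq_le_sq_mul_sq _ _ _).trans ?_
  have : ∑ j : Fin n, σ (i.val + j.val) ^ 2 = n := by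
    have h : ∀ j : Fin n, σ (i.val + j.val) ^ 2 = 1 := by
      intro j
      rcases hσ (i.val + j.val) with h | h <;> rw [h] <;> norm_num
    simp [h]
  rw [this]

theorem pf_eq {n : ℕ} (σ : ℕ → ℝ) (a b : Fin n → ℝ) :
    pf n σ a b = ∑ i : Fin n, a i * Yf n σ b i := by
  unfold pf Yf
  refine Finset.sum_congr rfl fun i _ => ?_
  rw [Finset.mul_sum]
  refine Finset.sum_congr rfl fun j _ => ?_
  ring

theorem sq_nonneg' {n : ℕ} (a : Fin n → ℝ) : 0 ≤ Pool.Agent.W682.TW.sq a :=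
  Finset.sum_nonneg fun i _ => sq_nonneg _

theorem pf_sq {n : ℕ} {σ : ℕ → ℝ} (hσ : Sgn σ) (a b : Fin n → ℝ) :
    pf n σ a b ^ 2 ≤ (n : ℝ) ^ 2 * Pool.Agent.W682.TW.sq a * Pool.Agent.W682.TW.sq b := by
  rw [pf_eq]
  refine (Finset.sum_mul_sq_le_sq_mul_sq _ _ _).trans ?_
  have h1 : ∑ i : Fin n, Yf n σ b i ^ 2 ≤ ∑ _i : Fin n, (n : ℝ) * Pool.Agent.W682.TW.sq b :=
    Finset.sum_le_sum fun i _ => Yf_sq hσ b i
  simp only [Finset.sum_const, Finset.card_univ, Fintype.card_fin, nsmul_eq_mul] at h1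
  have h2 : (∑ i : Fin n, a i ^ 2) * ∑ i : Fin n, Yf n σ b i ^ 2 ≤
      (∑ i : Fin n, a i ^ 2) * ((n : ℝ) * ((n : ℝ) * Pool.Agent.W682.TW.sq b)) :=
    mul_le_mul_of_nonneg_left h1 (sq_nonneg' a)
  refine h2.trans (le_of_eq ?_)
  unfold Pool.Agent.W682.TW.sq
  ring

theorem pf_bound {n : ℕ} {σ : ℕ → ℝ} (hσ : Sgn σ) (a b : Fin n → ℝ) :
    |pf n σ a b| ≤ (n : ℝ) ^ 2 * Pool.Agent.W682.TW.sq a + Pool.Agent.W682.TW.sq b / 4 := by
  have hA := sq_nonneg' a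
  have hB := sq_nonneg' b
  have hn : (0 : ℝ) ≤ (n : ℝ) ^ 2 := by positivity
  have h0 : 0 ≤ (n : ℝ) ^ 2 * Pool.Agent.W682.TW.sq a + Pool.Agent.W682.TW.sq b / 4 := by positivity
  apply abs_le_of_sq_le_sq _ h0
  have h1 := pf_sq hσ a b
  nlinarith [sq_nonneg ((n : ℝ) ^ 2 * Pool.Agent.W682.TW.sq a - Pool.Agent.W682.TW.sq b / 4)]

theorem main : S_LE4 := by
  intro n σ Mc Λ χ hσ hM hL hχ x
  unfold g4 wx
  have hA := sq_nonneg' x.2.1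
  have hB := sq_nonneg' x.2.2
  have hb := abs_le.1 (pf_bound hσ x.2.1 x.2.2)
  generalize Pool.Agent.W682.TW.sq x.2.1 = A at *
  generalize Pool.Agent.W682.TW.sq x.2.2 = B at *
  generalize pf n σ x.2.1 x.2.2 = P at *
  generalize x.1 = θ at *
  have hn : (0 : ℝ) ≤ (n : ℝ) ^ 2 * A := by positivity
  rcases hχ with rfl | rfl
  · nlinarith [sq_nonneg (Mc * θ / 2 + 1), mul_nonneg (sub_nonneg.2 hL) (sq_nonneg θ)]
  · nlinarith [sq_nonneg (Mc * (θ - 1) / 2 - 1), mul_nonneg (sub_nonneg.2 hL) (sq_nonneg (θ - 1))]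

end Pool.Agent.W925.TW.LE4
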