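import Pool.Agent.W682.TW.Stm

/-! Project TW, part PRF: the L2 error of the truncated profile. -/

set_option autoImplicit false

namespace Pool.Agent.W925.TW.PRF

open Pool.Agent.W682.TW
open scoped BigOperators
open MeasureTheory Real

/-- amplitude -/
noncomputable def Ak (τ : ℝ) (k : ℕ) : ℝ := 2 * Real.sin (π * k * τ) / (π * k)

/-- one term of the profile -/
noncomputable def gk (τ : ℝ) (k : ℕ) (s : ℝ) : ℝ :=
  Ak τ k * Real.cos (2 * π * k * s - π * k * τ)

theorem gk_eq (τ : ℝ) (k : ℕ) (s : ℝ) :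
    (Real.sin (2 * Real.pi * k * τ) * Real.cos (2 * Real.pi * k * s)
    + (1 - Real.cos (2 * Real.pi * k * τ)) * Real.sin (2 * Real.pi * k * s)) / (Real.pi * k)
    = gk τ k s := by
  unfold gk Ak
  have h1 : 2 * Real.pi * k * τ = 2 * (π * k * τ) := by ring
  rw [h1, Real.sin_two_mul, Real.cos_two_mul, Real.cos_sub]
  have h2 : Real.cos (π * k * τ) ^ 2 = 1 - Real.sin (π * k * τ) ^ 2 := by
    have := Real.sin_sq_add_cos_sq (π * k * τ); linarith
  rw [h2]
  ring

theorem TK_eq (K : ℕ) (τ s : ℝ) : TK K τ s = ∑ k ∈ Finset.Icc 1 K, gk τ k s := by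
  unfold TK
  exact Finset.sum_congr rfl fun k _ => gk_eq τ k s

theorem gk_cont (τ : ℝ) (k : ℕ) : Continuous (gk τ k) := by
  unfold gk
  fun_prop

theorem TK_cont (K : ℕ) (τ : ℝ) : Continuous (TK K τ) := by
  have : TK K τ = fun s => ∑ k ∈ Finset.Icc 1 K, gk τ k s := by
    funext s; exact TK_eq K τ s
  rw [this]
  exact continuous_finsetSum _ fun k _ => gk_cont τ k

theorem int_cos (c φ a b : ℝ) (hc : c ≠ 0) :
    ∫ s in a..b, Real.cos (c * s - φ) = (Real.sin (c * b - φ) - Real.sin (c * a - φ)) / c := by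
  rw [intervalIntegral.integral_comp_mul_sub (fun x => Real.cos x) hc φ, integral_cos, smul_eq_mul]
  field_simp

theorem int_cos_full (m : ℤ) (hm : m ≠ 0) (φ : ℝ) :
    ∫ s in (0 : ℝ)..1, Real.cos (2 * π * m * s - φ) = 0 := by
  have hm' : (m : ℝ) ≠ 0 := by exact_mod_cast hm
  have hc : 2 * π * (m : ℝ) ≠ 0 := by
    have := Real.pi_ne_zero
    positivity
  rw [int_cos _ _ _ _ hc]
  have h1 : 2 * π * (m : ℝ) * 1 - φ = (m : ℝ) * (2 * π) - φ := by ring
  have h2 : 2 * π * (m : ℝ) * 0 - φ = - φ := by ring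
  rw [h1, h2, Real.sin_int_mul_two_pi_sub, Real.sin_neg]
  simp

theorem orth (k l : ℕ) (hk : 1 ≤ k) (hl : 1 ≤ l) (φ ψ : ℝ) :
    ∫ s in (0 : ℝ)..1, Real.cos (2 * π * k * s - φ) * Real.cos (2 * π * l * s - ψ) =
      if k = l then Real.cos (φ - ψ) / 2 else 0 := by
  have h1 : ∀ s : ℝ, Real.cos (2 * π * k * s - φ) * Real.cos (2 * π * l * s - ψ) =
      (1 / 2) * Real.cos (2 * π * ((k - l : ℤ) : ℝ) * s - (φ - ψ)) +
      (1 / 2) * Real.cos (2 * π * ((k + l : ℤ) : ℝ) * s - (φ + ψ)) := by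
    intro s
    have e1 : 2 * π * ((k - l : ℤ) : ℝ) * s - (φ - ψ) =
        (2 * π * k * s - φ) - (2 * π * l * s - ψ) := by push_cast; ring
    have e2 : 2 * π * ((k + l : ℤ) : ℝ) * s - (φ + ψ) =
        (2 * π * k * s - φ) + (2 * π * l * s - ψ) := by push_cast; ring
    rw [e1, e2]
    generalize 2 * π * k * s - φ = A
    generalize 2 * π * l * s - ψ = B
    rw [Real.cos_sub, Real.cos_add]
    ring
  simp_rw [h1]
  rw [intervalIntegral.integral_add, intervalIntegral.integral_const_mul,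
    intervalIntegral.integral_const_mul, int_cos_full _ (by omega : (k + l : ℤ) ≠ 0)]
  · by_cases h : k = l
    · subst h
      have : ∀ s : ℝ, Real.cos (2 * π * ((k - k : ℤ) : ℝ) * s - (φ - ψ)) = Real.cos (φ - ψ) := by
        intro s
        have : 2 * π * ((k - k : ℤ) : ℝ) * s - (φ - ψ) = -(φ - ψ) := by push_cast; ring
        rw [this, Real.cos_neg]
      simp_rw [this]
      simp
      ring
    · rw [int_cos_full _ (by omega : (k - l : ℤ) ≠ 0)]
      simp [h]
  · exact (by fun_prop : Continuous _).intervalIntegrable _ _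
  · exact (by fun_prop : Continuous _).intervalIntegrable _ _

/-- the weights -/
noncomputable def ck (τ : ℝ) (k : ℕ) : ℝ := Ak τ k ^ 2 / 2

theorem int_gg (τ : ℝ) (k l : ℕ) (hk : 1 ≤ k) (hl : 1 ≤ l) :
    ∫ s in (0 : ℝ)..1, gk τ k s * gk τ l s = if k = l then ck τ k else 0 := by
  have h1 : ∀ s : ℝ, gk τ k s * gk τ l s = (Ak τ k * Ak τ l) *
      (Real.cos (2 * π * k * s - π * k * τ) * Real.cos (2 * π * l * s - π * l * τ)) := by
    intro s; unfold gk; ring
  simp_rw [h1]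
  rw [intervalIntegral.integral_const_mul, orth k l hk hl]
  by_cases h : k = l
  · subst h; simp [ck]; ring
  · simp [h]

theorem int_TK_sq (K : ℕ) (τ : ℝ) :
    ∫ s in (0 : ℝ)..1, TK K τ s ^ 2 = ∑ k ∈ Finset.Icc 1 K, ck τ k := by
  have h1 : ∀ s : ℝ, TK K τ s ^ 2 =
      ∑ k ∈ Finset.Icc 1 K, ∑ l ∈ Finset.Icc 1 K, gk τ k s * gk τ l s := by
    intro s
    rw [TK_eq, pow_two, Finset.sum_mul_sum]
  simp_rw [h1]
  rw [intervalIntegral.integral_finsetSum]
  · refine Finset.sum_congr rfl fun k hk => ?_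
    rw [intervalIntegral.integral_finsetSum]
    · have hk1 := (Finset.mem_Icc.1 hk).1
      rw [Finset.sum_congr rfl fun l hl => int_gg τ k l hk1 (Finset.mem_Icc.1 hl).1]
      rw [Finset.sum_ite_eq]
      simp [hk]
    · intro l _
      exact ((gk_cont τ k).mul (gk_cont τ l)).intervalIntegrable _ _
  · intro k _
    exact (continuous_finsetSum _ fun l _ =>
      (gk_cont τ k).mul (gk_cont τ l)).intervalIntegrable _ _

theorem int_TK (K : ℕ) (τ : ℝ) : ∫ s in (0 : ℝ)..1, TK K τ s = 0 := by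
  simp_rw [TK_eq]
  rw [intervalIntegral.integral_finsetSum]
  · refine Finset.sum_eq_zero fun k hk => ?_
    unfold gk
    rw [intervalIntegral.integral_const_mul]
    have hk1 := (Finset.mem_Icc.1 hk).1
    have := int_cos_full (k : ℤ) (by omega) (π * k * τ)
    simp only [Int.cast_natCast] at this
    rw [this, mul_zero]
  · intro k _
    exact (gk_cont τ k).intervalIntegrable _ _

theorem int_TK_part (K : ℕ) (τ : ℝ) :
    ∫ s in (0 : ℝ)..τ, TK K τ s = ∑ k ∈ Finset.Icc 1 K, ck τ k := by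
  simp_rw [TK_eq]
  rw [intervalIntegral.integral_finsetSum]
  · refine Finset.sum_congr rfl fun k hk => ?_
    unfold gk
    rw [intervalIntegral.integral_const_mul]
    have hk1 := (Finset.mem_Icc.1 hk).1
    have hk0 : (k : ℝ) ≠ 0 := by
      have : k ≠ 0 := by omega
      exact_mod_cast this
    have hc : 2 * π * (k : ℝ) ≠ 0 := by
      have := Real.pi_ne_zero
      positivity
    rw [int_cos _ _ _ _ hc]
    have e1 : 2 * π * (k : ℝ) * τ - π * k * τ = π * k * τ := by ring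
    have e2 : 2 * π * (k : ℝ) * 0 - π * k * τ = -(π * k * τ) := by ring
    rw [e1, e2, Real.sin_neg]
    unfold ck Ak
    have := Real.pi_ne_zero
    field_simp
    ring
  · intro k _
    exact (gk_cont τ k).intervalIntegrable _ _

theorem int_chi (τ : ℝ) (h0 : 0 ≤ τ) (h1 : τ ≤ 1) (h : ℝ → ℝ) :
    ∫ s in (0 : ℝ)..1, (if s < τ then (1 : ℝ) else 0) * h s = ∫ s in (0 : ℝ)..τ, h s := by
  rw [← intervalIntegral.integral_indicator (f := h) (a₁ := 0) (a₂ := τ) (a₃ := 1) ⟨h0, h1⟩]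
  refine intervalIntegral.integral_congr_ae ?_
  have h2 : ∀ᵐ s : ℝ ∂volume, s ≠ τ := by
    rw [ae_iff]
    simp
  filter_upwards [h2] with s hs _
  by_cases h3 : s < τ
  · have h4 : s ∈ {x : ℝ | x ≤ τ} := h3.le
    simp [h3, Set.indicator_of_mem h4]
  · have h4 : s ∉ {x : ℝ | x ≤ τ} := by
      intro h5
      rcases lt_or_eq_of_le (show s ≤ τ from h5) with h6 | h6
      · exact h3 h6
      · exact hs h6
    simp [h3, Set.indicator_of_notMem h4]

theorem chi_int (τ : ℝ) (h : ℝ → ℝ) (hh : Continuous h) :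
    IntervalIntegrable (fun s => (if s < τ then (1 : ℝ) else 0) * h s) volume 0 1 := by
  have h2 : (fun s => (if s < τ then (1 : ℝ) else 0) * h s) = Set.indicator (Set.Iio τ) h := by
    funext s
    by_cases h3 : s < τ
    · simp [h3]
    · simp [h3]
  rw [h2, intervalIntegrable_iff]
  exact (intervalIntegrable_iff.1 (hh.intervalIntegrable 0 1)).indicator measurableSet_Iio

theorem err (K : ℕ) (τ : ℝ) (h0 : 0 ≤ τ) (h1 : τ ≤ 1) :
    ∫ s in (0 : ℝ)..1, (τ + TK K τ s - (if s < τ then (1 : ℝ) else 0)) ^ 2 =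
      τ - τ ^ 2 - ∑ k ∈ Finset.Icc 1 K, ck τ k := by
  have hT := TK_cont K τ
  have e : ∀ s : ℝ, (τ + TK K τ s - (if s < τ then (1 : ℝ) else 0)) ^ 2 =
      (τ ^ 2 + 2 * τ * TK K τ s + TK K τ s ^ 2) +
        (if s < τ then (1 : ℝ) else 0) * (1 - 2 * τ - 2 * TK K τ s) := by
    intro s
    by_cases h : s < τ
    · simp [h]; ring
    · simp [h]; ring
  simp_rw [e]
  rw [intervalIntegral.integral_add, int_chi τ h0 h1, intervalIntegral.integral_add,
    intervalIntegral.integral_add, intervalIntegral.integral_sub,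
    intervalIntegral.integral_const_mul, intervalIntegral.integral_const_mul, int_TK, int_TK_sq,
    int_TK_part]
  · simp
    ring
  · exact continuous_const.intervalIntegrable _ _
  · exact (continuous_const.mul hT).intervalIntegrable _ _
  · exact continuous_const.intervalIntegrable _ _
  · exact (continuous_const.mul hT).intervalIntegrable _ _
  · exact (continuous_const.add (continuous_const.mul hT)).intervalIntegrable _ _
  · exact (hT.pow 2).intervalIntegrable _ _
  · exact ((continuous_const.add (continuous_const.mul hT)).add (hT.pow 2)).intervalIntegrable _ _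
  · exact chi_int τ _ (by fun_prop)

theorem ck_eq (τ : ℝ) (k : ℕ) : ck τ k = (1 / π ^ 2) * (1 / (k : ℝ) ^ 2
    - 1 / (k : ℝ) ^ 2 * Real.cos (2 * π * k * τ)) := by
  unfold ck Ak
  have h1 : 2 * Real.pi * k * τ = 2 * (π * k * τ) := by ring
  rw [h1, Real.cos_two_mul]
  have h2 : Real.cos (π * k * τ) ^ 2 = 1 - Real.sin (π * k * τ) ^ 2 := by
    have := Real.sin_sq_add_cos_sq (π * k * τ); linarith
  rw [h2]
  rcases eq_or_ne (k : ℝ) 0 with h | h
  · simp [h]
  · have := Real.pi_ne_zero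
    field_simp
    ring

theorem hasSum_ck (τ : ℝ) (h0 : 0 ≤ τ) (h1 : τ ≤ 1) : HasSum (ck τ) (τ - τ ^ 2) := by
  have a1 := hasSum_one_div_nat_pow_mul_cos (k := 1) one_ne_zero (x := τ) ⟨h0, h1⟩
  have a2 := hasSum_zeta_two
  have a3 := (a2.sub a1).mul_left (1 / π ^ 2)
  have e : (fun k : ℕ => (1 / π ^ 2) * (1 / (k : ℝ) ^ 2
      - 1 / (k : ℝ) ^ (2 * 1) * Real.cos (2 * π * k * τ))) = ck τ := by
    funext k
    rw [ck_eq]
  rw [e] at a3
  have := Real.pi_ne_zero
  have hb2 : _root_.bernoulli 2 = 1 / 6 := by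
    rw [bernoulli_eq_bernoulli'_of_ne_one (by decide), bernoulli'_two]
  have hB : (Polynomial.map (algebraMap ℚ ℝ) (Polynomial.bernoulli (2 * 1))).eval τ =
      τ ^ 2 - τ + 1 / 6 := by
    rw [mul_one, Polynomial.bernoulli]
    simp only [Finset.sum_range_succ, Finset.sum_range_zero, zero_add, Polynomial.map_add,
      Polynomial.eval_add, Polynomial.map_monomial, Polynomial.eval_monomial, bernoulli_zero,
      bernoulli_one, hb2]
    norm_num
    ring
  rw [hB] at a3
  have hv : 1 / π ^ 2 * (π ^ 2 / 6 - (-1) ^ (1 + 1) * (2 * π) ^ (2 * 1) / 2 /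
      ((2 * 1).factorial : ℝ) * (τ ^ 2 - τ + 1 / 6)) = τ - τ ^ 2 := by
    simp only [Nat.factorial]
    push_cast
    field_simp
    ring
  rw [hv] at a3
  exact a3

theorem ck_nonneg (τ : ℝ) (k : ℕ) : 0 ≤ ck τ k := by
  unfold ck; positivity

theorem ck_le (τ : ℝ) (k : ℕ) : ck τ k ≤ 1 / (k : ℝ) ^ 2 := by
  rcases eq_or_ne (k : ℝ) 0 with h | h
  · simp [ck, Ak, h]
  · unfold ck Ak
    have h2 := Real.sin_sq_le_one (π * k * τ)
    have h3 : 3 < π := Real.pi_gt_three
    have h4 : (0 : ℝ) < (k : ℝ) ^ 2 := by positivity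
    rw [div_pow, mul_pow, mul_pow, div_div, div_le_div_iff₀ (by positivity) h4]
    have h5 : (9 : ℝ) < π ^ 2 := by nlinarith
    nlinarith

theorem tail (K : ℕ) (hK : 1 ≤ K) (τ : ℝ) (m : ℕ) :
    ∑ k ∈ Finset.Icc 1 (K + m), ck τ k ≤ ∑ k ∈ Finset.Icc 1 K, ck τ k + 1 / (K : ℝ)
      - 1 / ((K + m : ℕ) : ℝ) := by
  induction m with
  | zero => simp
  | succ m ih =>
    rw [← add_assoc, Finset.sum_Icc_succ_top (by omega)]
    have h1 := ck_le τ (K + m + 1)
    have hx : (1 : ℝ) ≤ ((K + m : ℕ) : ℝ) := by exact_mod_cast (by omega : 1 ≤ K + m)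
    have h2 : 1 / (((K + m + 1 : ℕ) : ℝ)) ^ 2 ≤ 1 / ((K + m : ℕ) : ℝ) -
        1 / ((K + m + 1 : ℕ) : ℝ) := by
      have e : ((K + m + 1 : ℕ) : ℝ) = ((K + m : ℕ) : ℝ) + 1 := by push_cast; ring
      rw [e]
      generalize ((K + m : ℕ) : ℝ) = x at *
      have h3 : 0 < x := by linarith
      rw [div_sub_div _ _ h3.ne' (by linarith), div_le_div_iff₀ (by positivity) (by positivity)]
      nlinarith
    linarith

theorem main : S_PRF := by
  intro K τ hK h0 h1
  rw [err K τ h0 h1]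
  have hs := (hasSum_ck τ h0 h1).tendsto_sum_nat
  have hle : τ - τ ^ 2 ≤ ∑ k ∈ Finset.Icc 1 K, ck τ k + 1 / (K : ℝ) := by
    refine le_of_tendsto hs ?_
    filter_upwards [Filter.eventually_ge_atTop (K + 1)] with n hn
    obtain ⟨m, rfl⟩ : ∃ m, n = K + m + 1 := ⟨n - K - 1, by omega⟩
    have e : ∑ i ∈ Finset.range (K + m + 1), ck τ i = ∑ k ∈ Finset.Icc 1 (K + m), ck τ k := by
      rw [Finset.range_eq_Ico, Finset.sum_eq_sum_Ico_succ_bot (by omega)]
      have : ck τ 0 = 0 := by simp [ck, Ak]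
      rw [this, zero_add]
      rfl
    rw [e]
    have := tail K hK τ m
    have h2 : 0 ≤ 1 / ((K + m : ℕ) : ℝ) := by positivity
    linarith
  linarith

end Pool.Agent.W925.TW.PRF
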